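import Pool.Agent.Helper52.Wq2.Seq

set_option autoImplicit false

namespace Pool.Agent.Helper68.NW

open Pool.Agent.Helper52.Wq2

theorem conn_path {V : Type*} {G : SimpleGraph V} (f : ℤ → V) (a b : ℤ) (hab : a < b)
    (h : ∀ t, G.Adj (f t) (f (t + 1))) : Conn G {x | ∃ t, a ≤ t ∧ t < b ∧ f t = x} := by
  refine conn_of_root (r := f a) ⟨a, le_refl a, hab, rfl⟩ ?_
  have key : ∀ t, a ≤ t → t < b → Relation.ReflTransGen
      (fun c d => G.Adj c d ∧ d ∈ {x | ∃ t, a ≤ t ∧ t < b ∧ f t = x}) (f a) (f t) := by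
    intro t ht
    induction t, ht using Int.le_induction with
    | base => intro _; exact Relation.ReflTransGen.refl
    | succ n hn ih =>
      intro hb
      exact Relation.ReflTransGen.tail (ih (by omega)) ⟨h n, n + 1, by omega, hb, rfl⟩
  rintro _ ⟨t, h1, h2, rfl⟩
  exact key t h1 h2

/-- Lines with crossings between the lines of each pair and edges between neighbouring pairs. -/
structure Lad {V : Type*} (G : SimpleGraph V) (k m : ℕ) (v : ℤ → ℕ → V) : Prop where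
  inj : ∀ t i t' i', i < 2 * k → i' < 2 * k → v t i = v t' i' → t = t' ∧ i = i'
  vert : ∀ t i, i < 2 * k → G.Adj (v t i) (v (t + 1) i)
  cross : ∀ i, i < k → ∀ c : ℤ, ∃ y, c ≤ y ∧ y < c + m ∧
    G.Adj (v y (2 * i)) (v (y + 1) (2 * i + 1)) ∧ G.Adj (v (y + 1) (2 * i)) (v y (2 * i + 1))
  rung : ∀ i, i + 1 < k → ∀ c : ℤ, ∃ r r', c ≤ r ∧ r < c + m ∧ r' ≤ r + 1 ∧ r ≤ r' + 1 ∧
    G.Adj (v r (2 * i + 1)) (v r' (2 * i + 2))

theorem lad_star {V : Type*} {G : SimpleGraph V} {k m : ℕ} {v : ℤ → ℕ → V}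
    (h : Lad G k m v) (hk : 0 < k) : Mn (StarZ (Fin k)) G := by
  classical
  obtain ⟨w, hw⟩ : ∃ w : ℤ, w = m + 4 := ⟨_, rfl⟩
  obtain ⟨L, hL⟩ : ∃ L : ℤ, L = (2 * k + 4) * w := ⟨_, rfl⟩
  have hm0 : (0 : ℤ) ≤ m := Int.natCast_nonneg m
  have hw4 : 4 ≤ w := by omega
  have hkz : (0 : ℤ) < k := by exact_mod_cast hk
  have hLpos : 0 < L := by rw [hL]; positivity
  have hu : ∀ (x : ℤ) (i : Fin k), ∃ y, x * L + (2 * (i : ℕ) + 1) * w ≤ y ∧
      y < x * L + (2 * (i : ℕ) + 1) * w + m ∧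
      G.Adj (v y (2 * (i : ℕ))) (v (y + 1) (2 * (i : ℕ) + 1)) ∧
      G.Adj (v (y + 1) (2 * (i : ℕ))) (v y (2 * (i : ℕ) + 1)) := fun x i => h.cross i i.2 _
  choose u hu1 hu2 hu3 hu4 using hu
  have hd : ∀ (x : ℤ) (i : Fin k), ∃ y, x * L + (2 * k + 2) * w ≤ y ∧
      y < x * L + (2 * k + 2) * w + m ∧
      G.Adj (v y (2 * (i : ℕ))) (v (y + 1) (2 * (i : ℕ) + 1)) ∧
      G.Adj (v (y + 1) (2 * (i : ℕ))) (v y (2 * (i : ℕ) + 1)) := fun x i => h.cross i i.2 _
  choose d hd1 hd2 hd3 hd4 using hd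
  obtain ⟨P, hP⟩ : ∃ P : ℤ → Fin k → Prop, ∀ t i, P t i ↔ (u (t / L) i < t ∧ t ≤ d (t / L) i) :=
    ⟨_, fun t i => Iff.rfl⟩
  obtain ⟨lf, hlf⟩ : ∃ lf : ℤ → Fin k → ℕ,
      ∀ t i, lf t i = if P t i then 2 * (i : ℕ) else 2 * (i : ℕ) + 1 := ⟨_, fun t i => rfl⟩
  obtain ⟨ct, hct⟩ : ∃ ct : ℤ → Fin k → ℕ,
      ∀ t i, ct t i = if P t i then 2 * (i : ℕ) + 1 else 2 * (i : ℕ) := ⟨_, fun t i => rfl⟩
  have hdiv : ∀ x t : ℤ, x * L ≤ t → t < (x + 1) * L → t / L = x := by
    intro x t h1 h2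
    have e1 : x ≤ t / L := (Int.le_ediv_iff_mul_le hLpos).2 h1
    have e2 : t / L < x + 1 := (Int.ediv_lt_iff_lt_mul hLpos).2 h2
    omega
  have hdiv1 : ∀ t : ℤ, t / L * L ≤ t := fun t => (Int.le_ediv_iff_mul_le hLpos).1 le_rfl
  have hdiv2 : ∀ t : ℤ, t < (t / L + 1) * L := fun t =>
    (Int.ediv_lt_iff_lt_mul hLpos).1 (by omega)
  have hi2 : ∀ i : Fin k, 2 * (i : ℕ) < 2 * k ∧ 2 * (i : ℕ) + 1 < 2 * k := by
    intro i
    have := i.2
    omega
  -- the two crossings of a block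
  have hdL : ∀ (x : ℤ) (i : Fin k), d x i + 1 < (x + 1) * L := by
    intro x i
    have h2 := hd2 x i
    have e1 : (x + 1) * L = x * L + (2 * k + 2) * w + 2 * w := by rw [hL]; ring
    rw [e1]
    omega
  have huL : ∀ (x : ℤ) (i : Fin k), x * L < u x i := by
    intro x i
    have h1 := hu1 x i
    have e1 : 0 < (2 * ((i : ℕ) : ℤ) + 1) * w := by positivity
    omega
  have hlt : ∀ (x : ℤ) (i : Fin k), u x i + 1 < d x i := by
    intro x i
    have h1 := hu2 x i
    have h2 := hd1 x i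
    have h3 : ((i : ℕ) : ℤ) < k := by exact_mod_cast i.2
    have e1 : (2 * ((i : ℕ) : ℤ) + 2) * w ≤ (2 * k + 2) * w :=
      mul_le_mul_of_nonneg_right (by omega) (by omega)
    have e2 : (2 * ((i : ℕ) : ℤ) + 2) * w = (2 * ((i : ℕ) : ℤ) + 1) * w + w := by ring
    omega
  -- consecutive times
  have hcase : ∀ t i, (P t i ↔ P (t + 1) i) ∨
      (¬ P t i ∧ P (t + 1) i ∧ t = u (t / L) i) ∨ (P t i ∧ ¬ P (t + 1) i ∧ t = d (t / L) i) := by
    intro t i
    have a1 := hdiv1 t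
    have a2 := hdiv2 t
    by_cases h1 : t + 1 < (t / L + 1) * L
    · have h2 : (t + 1) / L = t / L := hdiv _ _ (by omega) h1
      have h3 := hlt (t / L) i
      rw [hP, hP, h2]
      omega
    · left
      have h2 : t + 1 = (t / L + 1) * L := by omega
      have h3 : (t + 1) / L = t / L + 1 := by
        rw [h2]
        exact Int.mul_ediv_cancel _ (by omega)
      rw [hP, hP, h3]
      have h4 := hdL (t / L) i
      have h5 := huL (t / L + 1) i
      omega
  have hlfa : ∀ t i, G.Adj (v t (lf t i)) (v (t + 1) (lf (t + 1) i)) := by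
    intro t i
    rcases hcase t i with hc | ⟨h1, h2, h3⟩ | ⟨h1, h2, h3⟩
    · rw [hlf, hlf]
      by_cases hp : P t i
      · rw [if_pos hp, if_pos (hc.1 hp)]
        exact h.vert _ _ (hi2 i).1
      · rw [if_neg hp, if_neg (fun h' => hp (hc.2 h'))]
        exact h.vert _ _ (hi2 i).2
    · rw [hlf, hlf, if_neg h1, if_pos h2]
      have := hu4 (t / L) i
      rw [← h3] at this
      exact this.symm
    · rw [hlf, hlf, if_pos h1, if_neg h2]
      have := hd3 (t / L) i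
      rw [← h3] at this
      exact this
  have hcta : ∀ t i, G.Adj (v t (ct t i)) (v (t + 1) (ct (t + 1) i)) := by
    intro t i
    rcases hcase t i with hc | ⟨h1, h2, h3⟩ | ⟨h1, h2, h3⟩
    · rw [hct, hct]
      by_cases hp : P t i
      · rw [if_pos hp, if_pos (hc.1 hp)]
        exact h.vert _ _ (hi2 i).2
      · rw [if_neg hp, if_neg (fun h' => hp (hc.2 h'))]
        exact h.vert _ _ (hi2 i).1
    · rw [hct, hct, if_neg h1, if_pos h2]
      have := hu3 (t / L) i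
      rw [← h3] at this
      exact this
    · rw [hct, hct, if_pos h1, if_neg h2]
      have := hd4 (t / L) i
      rw [← h3] at this
      exact this.symm
  have hlfb : ∀ t i, lf t i < 2 * k ∧ lf t i / 2 = i := by
    intro t i
    have := i.2
    rw [hlf]
    split_ifs <;> omega
  have hctb : ∀ t i, ct t i < 2 * k ∧ ct t i / 2 = i := by
    intro t i
    have := i.2
    rw [hct]
    split_ifs <;> omega
  have hne : ∀ t i, lf t i ≠ ct t i := by
    intro t i
    rw [hlf, hct]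
    split_ifs <;> omega
  obtain ⟨A, hA⟩ : ∃ A : ℤ → Fin k → Set V, ∀ x i, A x i =
      {y | ∃ t, x * L ≤ t ∧ t < (x + 1) * L ∧ v t (lf t i) = y} := ⟨_, fun x i => rfl⟩
  obtain ⟨B, hB⟩ : ∃ B : ℤ → Fin k → Set V, ∀ x i, B x i =
      {y | ∃ t, x * L ≤ t ∧ t < (x + 1) * L ∧ v t (ct t i) = y} := ⟨_, fun x i => rfl⟩
  have hxL : ∀ x : ℤ, x * L < (x + 1) * L := by
    intro x
    have : (x + 1) * L = x * L + L := by ring
    omega
  have hAc : ∀ x i, Conn G (A x i) := by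
    intro x i
    rw [hA]
    exact conn_path (fun t => v t (lf t i)) _ _ (hxL x) fun t => hlfa t i
  have hBc : ∀ x i, Conn G (B x i) := by
    intro x i
    rw [hB]
    exact conn_path (fun t => v t (ct t i)) _ _ (hxL x) fun t => hcta t i
  -- neighbouring pairs
  have hrg : ∀ (x : ℤ) (i : ℕ) (hi : i + 1 < k), ∃ a ∈ B x ⟨i, by omega⟩,
      ∃ b ∈ B x ⟨i + 1, hi⟩, G.Adj a b := by
    intro x i hi
    obtain ⟨r, r', h1, h2, h3, h4, h5⟩ := h.rung i hi (x * L + (2 * (i : ℤ) + 2) * w)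
    have hiz : (i : ℤ) + 1 < k := by exact_mod_cast hi
    have e1 : (2 * (i : ℤ) + 2) * w = (2 * (i : ℤ) + 1) * w + w := by ring
    have e3 : (2 * ((i + 1 : ℕ) : ℤ) + 1) * w = (2 * (i : ℤ) + 2) * w + w := by
      push_cast
      ring
    have e4 : (2 * (i : ℤ) + 2) * w + w ≤ (2 * k + 2) * w := by
      have : (2 * (i : ℤ) + 2) * w + w = (2 * (i : ℤ) + 3) * w := by ring
      rw [this]
      exact mul_le_mul_of_nonneg_right (by omega) (by omega)
    have e5 : (x + 1) * L = x * L + (2 * k + 2) * w + 2 * w := by rw [hL]; ring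
    have e6 : 0 ≤ (2 * (i : ℤ) + 1) * w := by positivity
    have c1 := hu2 x ⟨i, by omega⟩
    have c2 := hd1 x ⟨i, by omega⟩
    have c3 := hu1 x ⟨i + 1, hi⟩
    simp only at c1 c2 c3
    have b1 : r / L = x := hdiv x r (by omega) (by omega)
    have b2 : r' / L = x := hdiv x r' (by omega) (by omega)
    refine ⟨v r (2 * i + 1), ?_, v r' (2 * i + 2), ?_, h5⟩
    · rw [hB]
      refine ⟨r, by omega, by omega, ?_⟩
      rw [hct, if_pos]
      rw [hP, b1]
      exact ⟨by omega, by omega⟩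
    · rw [hB]
      refine ⟨r', by omega, by omega, ?_⟩
      rw [hct, if_neg]
      · rfl
      · rw [hP, b2]
        intro h'
        omega
  have hU : ∀ (x : ℤ) (j : ℕ), 0 < j → j ≤ k →
      Conn G {y | ∃ i : Fin k, (i : ℕ) < j ∧ y ∈ B x i} := by
    intro x j hj
    induction j, hj using Nat.le_induction with
    | base =>
      intro hk1
      have : {y | ∃ i : Fin k, (i : ℕ) < 0 + 1 ∧ y ∈ B x i} = B x ⟨0, hk⟩ := by
        ext y
        constructor
        · rintro ⟨i, hi, hy⟩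
          have : i = ⟨0, hk⟩ := Fin.ext (by simpa using hi)
          rw [← this]
          exact hy
        · intro hy
          exact ⟨⟨0, hk⟩, by simp, hy⟩
      rw [this]
      exact hBc x _
    | succ j hj ih =>
      intro hjk
      have hj' : 0 < j := hj
      have e : {y | ∃ i : Fin k, (i : ℕ) < j + 1 ∧ y ∈ B x i} =
          {y | ∃ i : Fin k, (i : ℕ) < j ∧ y ∈ B x i} ∪ B x ⟨j, by omega⟩ := by
        ext y
        constructor
        · rintro ⟨i, hi, hy⟩
          by_cases hij : (i : ℕ) < j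
          · exact Or.inl ⟨i, hij, hy⟩
          · right
            have : i = ⟨j, by omega⟩ := Fin.ext (by simp; omega)
            rw [← this]
            exact hy
        · rintro (⟨i, hi, hy⟩ | hy)
          · exact ⟨i, by omega, hy⟩
          · exact ⟨⟨j, by omega⟩, by simp, hy⟩
      rw [e]
      obtain ⟨i, rfl⟩ : ∃ i, j = i + 1 := ⟨j - 1, by omega⟩
      obtain ⟨a, ha, b, hb, hab⟩ := hrg x i (by omega)
      exact (ih (by omega)).union (hBc x _) ⟨⟨i, by omega⟩, by simp, ha⟩ hb hab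
  refine ⟨fun p => match p.2 with
    | none => {y | ∃ i : Fin k, y ∈ B p.1 i}
    | some i => A p.1 i, ?_, ?_, ?_⟩
  · rintro ⟨x, _ | i⟩
    · have := hU x k hk le_rfl
      have e : {y | ∃ i : Fin k, (i : ℕ) < k ∧ y ∈ B x i} = {y | ∃ i : Fin k, y ∈ B x i} := by
        ext y
        constructor
        · rintro ⟨i, _, hy⟩
          exact ⟨i, hy⟩
        · rintro ⟨i, hy⟩
          exact ⟨i, i.2, hy⟩
      rw [e] at this
      exact this
    · exact hAc x i
  · have hAA : ∀ x i x' i' y, y ∈ A x i → y ∈ A x' i' → x = x' ∧ i = i' := by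
      intro x i x' i' y h1 h2
      rw [hA] at h1 h2
      obtain ⟨t, a1, a2, a3⟩ := h1
      obtain ⟨t', b1, b2, b3⟩ := h2
      obtain ⟨c1, c2⟩ := h.inj _ _ _ _ (hlfb t i).1 (hlfb t' i').1 (a3.trans b3.symm)
      subst c1
      refine ⟨(hdiv x t a1 a2).symm.trans (hdiv x' t b1 b2), ?_⟩
      have d1 := (hlfb t i).2
      have d2 := (hlfb t i').2
      rw [c2, d2] at d1
      exact Fin.ext d1.symm
    have hBB : ∀ x i x' i' y, y ∈ B x i → y ∈ B x' i' → x = x' ∧ i = i' := by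
      intro x i x' i' y h1 h2
      rw [hB] at h1 h2
      obtain ⟨t, a1, a2, a3⟩ := h1
      obtain ⟨t', b1, b2, b3⟩ := h2
      obtain ⟨c1, c2⟩ := h.inj _ _ _ _ (hctb t i).1 (hctb t' i').1 (a3.trans b3.symm)
      subst c1
      refine ⟨(hdiv x t a1 a2).symm.trans (hdiv x' t b1 b2), ?_⟩
      have d1 := (hctb t i).2
      have d2 := (hctb t i').2
      rw [c2, d2] at d1
      exact Fin.ext d1.symm
    have hAB : ∀ x i x' i' y, y ∈ A x i → y ∈ B x' i' → False := by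
      intro x i x' i' y h1 h2
      rw [hA] at h1
      rw [hB] at h2
      obtain ⟨t, a1, a2, a3⟩ := h1
      obtain ⟨t', b1, b2, b3⟩ := h2
      obtain ⟨c1, c2⟩ := h.inj _ _ _ _ (hlfb t i).1 (hctb t' i').1 (a3.trans b3.symm)
      subst c1
      have d1 := (hlfb t i).2
      have d2 := (hctb t i').2
      rw [c2, d2] at d1
      have d3 : i' = i := Fin.ext d1
      subst d3
      exact hne t i' c2
    rintro ⟨x, _ | i⟩ ⟨x', _ | i'⟩ y h1 h2
    · obtain ⟨i, h1⟩ := h1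
      obtain ⟨i', h2⟩ := h2
      have c1 : x = x' := (hBB _ _ _ _ _ h1 h2).1
      rw [c1]
    · obtain ⟨i, h1⟩ := h1
      exact (hAB _ _ _ _ _ h2 h1).elim
    · obtain ⟨i', h2⟩ := h2
      exact (hAB _ _ _ _ _ h1 h2).elim
    · obtain ⟨c1, c2⟩ := hAA _ _ _ _ _ h1 h2
      have c3 : x = x' := c1
      rw [c3, c2]
  · have hlast : ∀ x : ℤ, x * L ≤ (x + 1) * L - 1 ∧ (x + 1) * L - 1 < (x + 1) * L := by
      intro x
      have := hxL x
      omega
    have hst : ∀ x : ℤ, (x + 1) * L < (x + 1 + 1) * L := fun x => hxL (x + 1)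
    have upA : ∀ x i, ∃ a ∈ A x i, ∃ b ∈ A (x + 1) i, G.Adj a b := by
      intro x i
      refine ⟨v ((x + 1) * L - 1) (lf ((x + 1) * L - 1) i), ?_,
        v ((x + 1) * L - 1 + 1) (lf ((x + 1) * L - 1 + 1) i), ?_, hlfa _ _⟩
      · rw [hA]
        exact ⟨_, (hlast x).1, (hlast x).2, rfl⟩
      · rw [hA]
        exact ⟨_, by omega, by have := hst x; omega, rfl⟩
    have upB : ∀ x i, ∃ a ∈ B x i, ∃ b ∈ B (x + 1) i, G.Adj a b := by
      intro x i
      refine ⟨v ((x + 1) * L - 1) (ct ((x + 1) * L - 1) i), ?_,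
        v ((x + 1) * L - 1 + 1) (ct ((x + 1) * L - 1 + 1) i), ?_, hcta _ _⟩
      · rw [hB]
        exact ⟨_, (hlast x).1, (hlast x).2, rfl⟩
      · rw [hB]
        exact ⟨_, by omega, by have := hst x; omega, rfl⟩
    have ac : ∀ x i, ∃ a ∈ B x i, ∃ b ∈ A x i, G.Adj a b := by
      intro x i
      have c1 := huL x i
      have c2 := hlt x i
      have c3 := hdL x i
      have b1 : u x i / L = x := hdiv x _ (by omega) (by omega)
      have b2 : (u x i + 1) / L = x := hdiv x _ (by omega) (by omega)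
      refine ⟨v (u x i) (2 * (i : ℕ)), ?_, v (u x i + 1) (2 * (i : ℕ)), ?_,
        h.vert _ _ (hi2 i).1⟩
      · rw [hB]
        refine ⟨u x i, by omega, by omega, ?_⟩
        rw [hct, if_neg]
        rw [hP, b1]
        omega
      · rw [hA]
        refine ⟨u x i + 1, by omega, by omega, ?_⟩
        rw [hlf, if_pos]
        rw [hP, b2]
        omega
    have swap : ∀ {X Y : Set V}, (∃ a ∈ X, ∃ b ∈ Y, G.Adj a b) → ∃ a ∈ Y, ∃ b ∈ X, G.Adj a b := by
      rintro X Y ⟨a, ha, b, hb, hab⟩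
      exact ⟨b, hb, a, ha, hab.symm⟩
    have main : ∀ p q : ℤ × Option (Fin k),
        ((p.2 = q.2 ∧ q.1 = p.1 + 1) ∨ (p.1 = q.1 ∧ p.2 = none)) → p ≠ q →
        ∃ a ∈ (match p.2 with
          | none => {y | ∃ i : Fin k, y ∈ B p.1 i}
          | some i => A p.1 i), ∃ b ∈ (match q.2 with
          | none => {y | ∃ i : Fin k, y ∈ B q.1 i}
          | some i => A q.1 i), G.Adj a b := by
      rintro ⟨x, o⟩ ⟨x', o'⟩ (⟨h1, h2⟩ | ⟨h1, h2⟩) hpq
      · simp only at h1 h2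
        subst h1 h2
        rcases o with _ | i
        · obtain ⟨a, ha, b, hb, hab⟩ := upB x ⟨0, hk⟩
          exact ⟨a, ⟨_, ha⟩, b, ⟨_, hb⟩, hab⟩
        · exact upA x i
      · simp only at h1 h2
        subst h1 h2
        rcases o' with _ | i
        · exact (hpq rfl).elim
        · obtain ⟨a, ha, b, hb, hab⟩ := ac x i
          exact ⟨a, ⟨_, ha⟩, b, hb, hab⟩
    intro p q hpq
    unfold StarZ at hpq
    rw [SimpleGraph.fromRel_adj] at hpq
    obtain ⟨hne', h1 | h1⟩ := hpq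
    · exact main p q h1 hne'
    · exact swap (main q p h1 hne'.symm)

end Pool.Agent.Helper68.NW
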