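import Pool.Agent.Helper61.NW.Goals
import Pool.Agent.Helper68.NW.Lad

set_option autoImplicit false

namespace Pool.Agent.Helper68.NW

open Pool.Agent.Helper52.Wq2 Pool.Agent.Helper61.NW

universe u

section

variable {Γ : Type u} [Group Γ] {S : Set Γ} {h : Γ → ℤ} {s : Γ} {H n m : ℕ}

theorem h_one (T : Two S h s H n m) : h 1 = 0 := by
  have := T.hom 1 1
  rw [mul_one] at this
  omega

theorem h_inv (T : Two S h s H n m) (g : Γ) : h g⁻¹ = - h g := by
  have := T.hom g⁻¹ g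
  rw [inv_mul_cancel, h_one T] at this
  omega

theorem h_zpow (T : Two S h s H n m) (t : ℤ) : h (s ^ t) = t * H := by
  induction t using Int.induction_on with
  | zero => simp [h_one T]
  | succ i ih =>
    rw [zpow_add_one, T.hom, ih, T.Hs]
    push_cast
    ring
  | pred i ih =>
    rw [zpow_sub_one, T.hom, ih, h_inv T, T.Hs]
    push_cast
    ring

theorem adj_of (T : Two S h s H n m) {a b : Γ} (hab : a⁻¹ * b ∈ S) : (cay S).Adj a b := by
  unfold cay
  rw [SimpleGraph.fromRel_adj]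
  refine ⟨?_, Or.inl hab⟩
  rintro rfl
  rw [inv_mul_cancel] at hab
  exact T.gen.2.2 hab

theorem exists_rep (T : Two S h s H n m) (A : Γ ⧸ Subgroup.zpowers s) :
    ∃ g : Γ, (g : Γ ⧸ Subgroup.zpowers s) = A ∧ 0 ≤ h g ∧ h g < H := by
  obtain ⟨a, rfl⟩ := QuotientGroup.mk_surjective A
  have hH : (0 : ℤ) < H := by exact_mod_cast T.Hpos
  refine ⟨a * s ^ (-(h a / H)), ?_, ?_⟩
  · exact QuotientGroup.mk_mul_of_mem a (Subgroup.zpow_mem _ (Subgroup.mem_zpowers s) _)
  · have e : h (a * s ^ (-(h a / H))) = h a % H := by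
      rw [T.hom, h_zpow T, Int.emod_def]
      ring
    rw [e]
    exact ⟨Int.emod_nonneg _ hH.ne', Int.emod_lt_of_pos _ hH⟩

theorem cen_z (T : Two S h s H n m) (g : Γ) (z : ℤ) :
    g * s ^ ((m : ℤ) * z) = s ^ ((m : ℤ) * z) * g := by
  have h1 : Commute g (s ^ m) := T.cen g
  have h2 : Commute g ((s ^ m) ^ z) := h1.zpow_right z
  rw [← zpow_natCast, ← zpow_mul] at h2
  exact h2

/-- Positions in a window. -/
theorem window {m : ℕ} (hm : 0 < m) (y c : ℤ) : ∃ z : ℤ, c ≤ y + m * z ∧ y + m * z < c + m := by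
  have hm' : (0 : ℤ) < m := by exact_mod_cast hm
  refine ⟨-((y - c) / m), ?_⟩
  have h1 := Int.emod_nonneg (y - c) hm'.ne'
  have h2 := Int.emod_lt_of_pos (y - c) hm'
  have h3 : y + m * (-((y - c) / m)) = c + (y - c) % m := by
    rw [Int.emod_def]
    ring
  rw [h3]
  omega

/-- A crossing between two lines. -/
def CX (S : Set Γ) (h : Γ → ℤ) (s : Γ) (H : ℕ) (A B : Γ ⧸ Subgroup.zpowers s) : Prop :=
  ∃ a b : Γ, (a : Γ ⧸ Subgroup.zpowers s) = A ∧ (b : Γ ⧸ Subgroup.zpowers s) = B ∧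
    h b = h a + H ∧ a⁻¹ * b ∈ S ∧ (a * s)⁻¹ * (b * s⁻¹) ∈ S

/-- An edge between two lines. -/
def RG (S : Set Γ) (s : Γ) (A B : Γ ⧸ Subgroup.zpowers s) : Prop :=
  ∃ a b : Γ, (a : Γ ⧸ Subgroup.zpowers s) = A ∧ (b : Γ ⧸ Subgroup.zpowers s) = B ∧ a⁻¹ * b ∈ S

theorem CX.symm (T : Two S h s H n m) {A B : Γ ⧸ Subgroup.zpowers s} (hc : CX S h s H A B) :
    CX S h s H B A := by
  obtain ⟨a, b, rfl, rfl, h1, h2, h3⟩ := hc
  refine ⟨b * s⁻¹, a * s, ?_, ?_, ?_, ?_, ?_⟩
  · exact QuotientGroup.mk_mul_of_mem b (Subgroup.inv_mem _ (Subgroup.mem_zpowers s))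
  · exact QuotientGroup.mk_mul_of_mem a (Subgroup.mem_zpowers s)
  · rw [T.hom, T.hom, h_inv T, T.Hs, h1]
    ring
  · have := T.gen.2.1 _ h3
    rwa [mul_inv_rev, inv_inv] at this
  · have := T.gen.2.1 _ h2
    have e : (b * s⁻¹ * s)⁻¹ * (a * s * s⁻¹) = (a⁻¹ * b)⁻¹ := by group
    rwa [e]

theorem CX.smul (T : Two S h s H n m) {A B : Γ ⧸ Subgroup.zpowers s} (hc : CX S h s H A B)
    (g : Γ) : CX S h s H (g • A) (g • B) := by
  obtain ⟨a, b, rfl, rfl, h1, h2, h3⟩ := hc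
  refine ⟨g * a, g * b, rfl, rfl, ?_, ?_, ?_⟩
  · rw [T.hom, T.hom, h1]
    ring
  · have e : (g * a)⁻¹ * (g * b) = a⁻¹ * b := by group
    rwa [e]
  · have e : (g * a * s)⁻¹ * (g * b * s⁻¹) = (a * s)⁻¹ * (b * s⁻¹) := by group
    rwa [e]

theorem ln_iff (T : Two S h s H n m) {A B : Γ ⧸ Subgroup.zpowers s} :
    (Ln S s).Adj A B ↔ A ≠ B ∧ RG S s A B := by
  unfold Ln
  rw [SimpleGraph.fromRel_adj]
  constructor
  · rintro ⟨hne, ⟨g, t, ht, h1, h2⟩ | ⟨g, t, ht, h1, h2⟩⟩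
    · refine ⟨hne, g, g * t, h1, h2, ?_⟩
      rwa [inv_mul_cancel_left]
    · refine ⟨hne, g * t, g, h2, h1, ?_⟩
      rw [mul_inv_rev, inv_mul_cancel_right]
      exact T.gen.2.1 _ ht
  · rintro ⟨hne, a, b, h1, h2, h3⟩
    refine ⟨hne, Or.inl ⟨a, a⁻¹ * b, h3, h1, ?_⟩⟩
    rw [mul_inv_cancel_left]
    exact h2

theorem ln_smul (T : Two S h s H n m) {A B : Γ ⧸ Subgroup.zpowers s}
    (hab : (Ln S s).Adj A B) (g : Γ) : (Ln S s).Adj (g • A) (g • B) := by
  rw [ln_iff T] at hab ⊢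
  obtain ⟨hne, a, b, rfl, rfl, h3⟩ := hab
  refine ⟨fun h' => hne (smul_left_cancel g h'), g * a, g * b, rfl, rfl, ?_⟩
  have e : (g * a)⁻¹ * (g * b) = a⁻¹ * b := by group
  rwa [e]

end

/-- Packet NW-CRX. -/
theorem crx : CrxStmt.{u} := by
  classical
  intro Γ _ S h s H n m T hn e hE hC q hq
  have hH : (0 : ℤ) < H := by exact_mod_cast T.Hpos
  -- crossings in the gaps
  have two0 : (2 : ZMod n) ≠ 0 := by
    intro h2
    have h3 : ((2 : ℕ) : ZMod n) = 0 := by exact_mod_cast h2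
    rw [ZMod.natCast_eq_zero_iff] at h3
    have := Nat.le_of_dvd (by norm_num) h3
    omega
  obtain ⟨j₀, hj₀⟩ : ∃ j, CX S h s H (e.symm j) (e.symm (j + 1)) := by
    obtain ⟨j, a, b, h1, h2, h3⟩ := hC
    exact ⟨j, a, b, by rw [← h1, Equiv.symm_apply_apply], by rw [← h2, Equiv.symm_apply_apply], h3⟩
  have hadj : ∀ a : ZMod n, (Ln S s).Adj (e.symm a) (e.symm (a + 1)) := by
    intro a
    rw [hE]
    left
    rw [Equiv.apply_symm_apply, Equiv.apply_symm_apply]
  have N1 : ∀ j, CX S h s H (e.symm j) (e.symm (j + 1)) → ∀ a,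
      CX S h s H (e.symm a) (e.symm (a + 1)) ∨ CX S h s H (e.symm (a - 1)) (e.symm a) := by
    intro j hj a
    obtain ⟨g, hg⟩ := MulAction.exists_smul_eq Γ (e.symm j) (e.symm a)
    have h1 := CX.smul T hj g
    have h2 := ln_smul T (hadj j) g
    rw [hg] at h1 h2
    rw [hE, Equiv.apply_symm_apply] at h2
    rcases h2 with h2 | h2
    · left
      rw [← h2, Equiv.symm_apply_apply]
      exact h1
    · right
      have h3 : e (g • e.symm (j + 1)) = a - 1 := by rw [h2]; ring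
      rw [← h3, Equiv.symm_apply_apply]
      exact CX.symm T h1
  have N2 : ∀ j, CX S h s H (e.symm j) (e.symm (j + 1)) →
      CX S h s H (e.symm (j + 1)) (e.symm (j + 1 + 1)) → ∀ a,
      CX S h s H (e.symm a) (e.symm (a + 1)) := by
    intro j hj hj1 a
    obtain ⟨g, hg⟩ := MulAction.exists_smul_eq Γ (e.symm (j + 1)) (e.symm a)
    have h1 := CX.symm T (CX.smul T hj g)
    have h1' := CX.smul T hj1 g
    have h2 := (ln_smul T (hadj j) g).symm
    have h2' := ln_smul T (hadj (j + 1)) g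
    rw [hg] at h1 h1' h2 h2'
    rw [hE, Equiv.apply_symm_apply] at h2 h2'
    rcases h2 with h2 | h2
    · rw [← h2, Equiv.symm_apply_apply]
      exact h1
    · rcases h2' with h2' | h2'
      · rw [← h2', Equiv.symm_apply_apply]
        exact h1'
      · exfalso
        have h3 : e (g • e.symm j) = e (g • e.symm (j + 1 + 1)) := by
          have := h2.symm.trans h2'
          exact add_right_cancel this
        have h4 := smul_left_cancel g (e.injective h3)
        have h5 := e.symm.injective h4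
        apply two0
        have h6 : j + (1 + 1) = j := by rw [← add_assoc]; exact h5.symm
        have h7 : (1 + 1 : ZMod n) = 0 := by
          simpa using h6
        rw [← h7]
        norm_num
  have N3 : ∀ j, CX S h s H (e.symm j) (e.symm (j + 1)) →
      CX S h s H (e.symm (j + 2)) (e.symm (j + 2 + 1)) := by
    intro j hj
    by_cases hj1 : CX S h s H (e.symm (j + 1)) (e.symm (j + 1 + 1))
    · exact N2 j hj hj1 _
    · rcases N1 j hj (j + 2) with h1 | h1
      · exact h1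
      · exfalso
        apply hj1
        have e1 : j + 2 - 1 = j + 1 := by ring
        have e2 : j + 2 = j + 1 + 1 := by ring
        rw [e1, e2] at h1
        exact h1
  have N4 : ∀ i : ℕ, CX S h s H (e.symm (j₀ + ((2 * i : ℕ) : ZMod n)))
      (e.symm (j₀ + ((2 * i + 1 : ℕ) : ZMod n))) := by
    intro i
    induction i with
    | zero =>
      have e1 : j₀ + ((2 * 0 : ℕ) : ZMod n) = j₀ := by simp
      have e2 : j₀ + ((2 * 0 + 1 : ℕ) : ZMod n) = j₀ + 1 := by simp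
      rw [e1, e2]
      exact hj₀
    | succ i ih =>
      have e0 : j₀ + ((2 * i + 1 : ℕ) : ZMod n) = j₀ + ((2 * i : ℕ) : ZMod n) + 1 := by
        push_cast
        ring
      rw [e0] at ih
      have := N3 _ ih
      have e1 : j₀ + ((2 * (i + 1) : ℕ) : ZMod n) = j₀ + ((2 * i : ℕ) : ZMod n) + 2 := by
        push_cast
        ring
      have e2 : j₀ + ((2 * (i + 1) + 1 : ℕ) : ZMod n) = j₀ + ((2 * i : ℕ) : ZMod n) + 2 + 1 := by
        push_cast
        ring
      rw [e1, e2]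
      exact this
  -- the lines
  choose r hr1 hr2 hr3 using exists_rep T
  obtain ⟨V, hV⟩ : ∃ V : ℤ → (Γ ⧸ Subgroup.zpowers s) → Γ, ∀ t A, V t A = r A * s ^ t :=
    ⟨_, fun t A => rfl⟩
  have hVh : ∀ t A, h (V t A) = h (r A) + t * H := by
    intro t A
    rw [hV, T.hom, h_zpow T]
  have hVc : ∀ t A, ((V t A : Γ) : Γ ⧸ Subgroup.zpowers s) = A := by
    intro t A
    rw [hV, QuotientGroup.mk_mul_of_mem _ (Subgroup.zpow_mem _ (Subgroup.mem_zpowers s) _)]
    exact hr1 A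
  have hVs : ∀ (g : Γ) (A : Γ ⧸ Subgroup.zpowers s), (g : Γ ⧸ Subgroup.zpowers s) = A →
      ∃ t, g = V t A := by
    intro g A hg
    have h1 : (r A)⁻¹ * g ∈ Subgroup.zpowers s := by
      rw [← QuotientGroup.eq, hr1, hg]
    obtain ⟨t, ht⟩ := Subgroup.mem_zpowers_iff.1 h1
    refine ⟨t, ?_⟩
    rw [hV, ht, mul_inv_cancel_left]
  have hVt : ∀ (z t : ℤ) A, V (t + m * z) A = s ^ ((m : ℤ) * z) * V t A := by
    intro z t A
    rw [hV, hV, zpow_add, ← mul_assoc, cen_z T]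
  have hadjt : ∀ (z t t' : ℤ) A B, (V t A)⁻¹ * V t' B ∈ S →
      (cay S).Adj (V (t + m * z) A) (V (t' + m * z) B) := by
    intro z t t' A B hAB
    apply adj_of T
    rw [hVt, hVt]
    have e1 : (s ^ ((m : ℤ) * z) * V t A)⁻¹ * (s ^ ((m : ℤ) * z) * V t' B) =
        (V t A)⁻¹ * V t' B := by group
    rwa [e1]
  have hcx : ∀ A B, CX S h s H A B → ∀ c : ℤ, ∃ y, c ≤ y ∧ y < c + m ∧
      (cay S).Adj (V y A) (V (y + 1) B) ∧ (cay S).Adj (V (y + 1) A) (V y B) := by
    intro A B hAB c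
    obtain ⟨a, b, ha, hb, h1, h2, h3⟩ := hAB
    obtain ⟨y, rfl⟩ := hVs a A ha
    obtain ⟨y', rfl⟩ := hVs b B hb
    have h4 : y' = y + 1 := by
      rw [hVh, hVh] at h1
      have a1 := hr2 A
      have a2 := hr3 A
      have b1 := hr2 B
      have b2 := hr3 B
      have c1 : (y' - y - 1) * (H : ℤ) < 1 * H := by linarith
      have c2 : (-1) * (H : ℤ) < (y' - y - 1) * H := by linarith
      have c3 := lt_of_mul_lt_mul_right c1 hH.le
      have c4 := lt_of_mul_lt_mul_right c2 hH.le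
      omega
    subst h4
    obtain ⟨z, hz1, hz2⟩ := window T.mpos y c
    refine ⟨y + m * z, hz1, hz2, ?_, ?_⟩
    · have := hadjt z y (y + 1) A B h2
      rwa [show y + 1 + (m : ℤ) * z = y + m * z + 1 by ring] at this
    · have e1 : V (y + 1) A = V y A * s := by rw [hV, hV, zpow_add_one, mul_assoc]
      have e2 : V y B = V (y + 1) B * s⁻¹ := by
        rw [hV, hV, zpow_add_one, mul_assoc, mul_assoc, mul_inv_cancel, mul_one]
      have h5 : (V (y + 1) A)⁻¹ * V y B ∈ S := by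
        rw [e1, e2]
        exact h3
      have := hadjt z (y + 1) y A B h5
      rwa [show y + 1 + (m : ℤ) * z = y + m * z + 1 by ring] at this
  have hrg : ∀ A B, RG S s A B → ∀ c : ℤ, ∃ r₁ r₂, c ≤ r₁ ∧ r₁ < c + m ∧ r₂ ≤ r₁ + 1 ∧
      r₁ ≤ r₂ + 1 ∧ (cay S).Adj (V r₁ A) (V r₂ B) := by
    intro A B hAB c
    obtain ⟨a, b, ha, hb, h2⟩ := hAB
    obtain ⟨y, rfl⟩ := hVs a A ha
    obtain ⟨y', rfl⟩ := hVs b B hb
    have h1 := T.max _ h2
    rw [T.hom, h_inv T, hVh, hVh, abs_le] at h1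
    have a1 := hr2 A
    have a2 := hr3 A
    have b1 := hr2 B
    have b2 := hr3 B
    have c1 : (y' - y) * (H : ℤ) < 2 * H := by linarith [h1.2]
    have c2 : (-2) * (H : ℤ) < (y' - y) * H := by linarith [h1.1]
    have c3 := lt_of_mul_lt_mul_right c1 hH.le
    have c4 := lt_of_mul_lt_mul_right c2 hH.le
    obtain ⟨z, hz1, hz2⟩ := window T.mpos y c
    exact ⟨y + m * z, y' + m * z, hz1, hz2, by omega, by omega, hadjt z y y' A B h2⟩
  have L : Lad (cay S) (q + 1) m (fun t i => V t (e.symm (j₀ + ((i : ℕ) : ZMod n)))) := by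
    refine ⟨?_, ?_, ?_, ?_⟩
    · intro t i t' i' hi hi' hh
      have h1 := congrArg (fun g : Γ => (g : Γ ⧸ Subgroup.zpowers s)) hh
      simp only [hVc] at h1
      have h2 := add_left_cancel (e.symm.injective h1)
      rw [ZMod.natCast_eq_natCast_iff', Nat.mod_eq_of_lt (by omega),
        Nat.mod_eq_of_lt (by omega)] at h2
      subst h2
      refine ⟨?_, rfl⟩
      have h3 := congrArg h hh
      rw [hVh, hVh] at h3
      have h4 : t * (H : ℤ) = t' * H := by linarith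
      exact mul_right_cancel₀ hH.ne' h4
    · intro t i _
      apply adj_of T
      simp only [hV]
      have e1 : ∀ g : Γ, (g * s ^ t)⁻¹ * (g * s ^ (t + 1)) = s := by
        intro g
        rw [zpow_add_one]
        group
      rw [e1]
      exact T.hs
    · intro i _ c
      exact hcx _ _ (N4 i) c
    · intro i _ c
      have h1 := hadj (j₀ + ((2 * i + 1 : ℕ) : ZMod n))
      have e1 : j₀ + ((2 * i + 1 : ℕ) : ZMod n) + 1 = j₀ + ((2 * i + 2 : ℕ) : ZMod n) := by
        push_cast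
        ring
      rw [e1] at h1
      exact hrg _ _ ((ln_iff T).1 h1).2 c
  refine Mn.trans ?_ (lad_star L (by omega))
  refine Mn.of_inj (fun p : ℤ × Option (Fin q) => (p.1, p.2.map Fin.castSucc)) ?_ ?_
  · rintro ⟨x, o⟩ ⟨x', o'⟩ hh
    simp only [Prod.mk.injEq] at hh
    obtain ⟨h1, h2⟩ := hh
    have h3 := Option.map_injective (Fin.castSucc_injective q) h2
    rw [h1, h3]
  · rintro ⟨x, o⟩ ⟨x', o'⟩ hh
    unfold StarZ at hh ⊢
    rw [SimpleGraph.fromRel_adj] at hh ⊢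
    obtain ⟨h1, h2⟩ := hh
    refine ⟨?_, ?_⟩
    · intro h3
      apply h1
      simp only [Prod.mk.injEq] at h3
      obtain ⟨h4, h5⟩ := h3
      rw [h4, Option.map_injective (Fin.castSucc_injective q) h5]
    · rcases h2 with (⟨h2, h3⟩ | ⟨h2, h3⟩) | (⟨h2, h3⟩ | ⟨h2, h3⟩)
      · left; left; exact ⟨congrArg (Option.map Fin.castSucc) h2, h3⟩
      · left; right; exact ⟨h2, by simp only at h3; simp [h3]⟩
      · right; left; exact ⟨congrArg (Option.map Fin.castSucc) h2, h3⟩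
      · right; right; exact ⟨h2, by simp only at h3; simp [h3]⟩

end Pool.Agent.Helper68.NW
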