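import Pool.Agent.Helper61.NW.Goals2

set_option autoImplicit false

namespace Pool.Agent.Helper68.NW

open Pool.Agent.Helper52.Wq2 Pool.Agent.Helper61.NW

/-- Line systems from a permutation `φ` which moves every vertex up by `H`. -/
theorem lsys_of {V : Type*} (G : SimpleGraph V) (X : V → ℤ) (H : ℤ) (φ : Equiv.Perm V) (m : ℕ)
    (hH : 0 < H) (hm : 0 < m) (hX : ∀ v, X (φ v) = X v + H) (hadj : ∀ v, G.Adj v (φ v))
    (hle : ∀ u v, G.Adj u v → |X u - X v| ≤ H) (n : ℕ)
    (hD : {v | 0 ≤ X v ∧ X v < H}.Finite) (hn : Nat.card {v | 0 ≤ X v ∧ X v < H} = n)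
    (hne : Nonempty V) (hc : Conn G Set.univ)
    (htr : ∀ u v, ∃ (f : G ≃g G) (e : ℤ), (e = 1 ∨ e = -1) ∧
      (∀ w, f (φ w) = (φ ^ e) (f w)) ∧ ∃ c : ℤ, f u = (φ ^ c) v)
    (hper : ∃ p : G ≃g G, ∀ w, p w = (φ ^ (m : ℤ)) w) :
    ∃ G' : SimpleGraph (ℤ × Fin n), Lsys n m G' ∧ Nonempty (G ≃g G') := by
  classical
  have : Finite {v | 0 ≤ X v ∧ X v < H} := hD
  obtain ⟨eD⟩ : Nonempty ({v | 0 ≤ X v ∧ X v < H} ≃ Fin n) := ⟨Finite.equivFinOfCardEq hn⟩
  obtain ⟨d, hd⟩ : ∃ d : Fin n → V, ∀ i, d i = (eD.symm i : V) := ⟨_, fun i => rfl⟩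
  have hdX : ∀ i, 0 ≤ X (d i) ∧ X (d i) < H := by
    intro i
    rw [hd]
    exact (eD.symm i).2
  have hXz : ∀ (a : ℤ) v, X ((φ ^ a) v) = X v + a * H := by
    intro a
    induction a using Int.induction_on with
    | zero => intro v; simp
    | succ i ih =>
      intro v
      rw [zpow_add_one, Equiv.Perm.mul_apply, ih, hX]
      ring
    | pred i ih =>
      intro v
      rw [zpow_sub_one, Equiv.Perm.mul_apply, ih]
      have h1 := hX (φ⁻¹ v)
      have h0 : φ (φ⁻¹ v) = v := φ.apply_symm_apply v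
      rw [h0] at h1
      rw [h1]
      ring
  have hinj : Function.Injective (fun p : ℤ × Fin n => (φ ^ p.1) (d p.2)) := by
    rintro ⟨a, i⟩ ⟨b, j⟩ hh
    simp only at hh
    have h1 := congrArg X hh
    rw [hXz, hXz] at h1
    have a1 := hdX i
    have a2 := hdX j
    have c1 : (a - b) * H < 1 * H := by linarith
    have c2 : (-1) * H < (a - b) * H := by linarith
    have c3 := lt_of_mul_lt_mul_right c1 hH.le
    have c4 := lt_of_mul_lt_mul_right c2 hH.le
    have c5 : a = b := by omega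
    subst c5
    have h2 := (φ ^ a).injective hh
    rw [hd, hd] at h2
    have h3 := eD.symm.injective (Subtype.ext h2)
    rw [h3]
  have hsurj : Function.Surjective (fun p : ℤ × Fin n => (φ ^ p.1) (d p.2)) := by
    intro v
    have h1 := hXz (-(X v / H)) v
    have h2 : X ((φ ^ (-(X v / H))) v) = X v % H := by
      rw [h1, Int.emod_def]
      ring
    have h3 : 0 ≤ X ((φ ^ (-(X v / H))) v) ∧ X ((φ ^ (-(X v / H))) v) < H := by
      rw [h2]
      exact ⟨Int.emod_nonneg _ hH.ne', Int.emod_lt_of_pos _ hH⟩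
    refine ⟨(X v / H, eD ⟨_, h3⟩), ?_⟩
    simp only
    rw [hd, Equiv.symm_apply_apply]
    change (φ ^ (X v / H)) ((φ ^ (-(X v / H))) v) = v
    rw [← Equiv.Perm.mul_apply, ← zpow_add]
    simp
  obtain ⟨Φ, hΦ⟩ : ∃ Φ : ℤ × Fin n ≃ V, ∀ a i, Φ (a, i) = (φ ^ a) (d i) :=
    ⟨Equiv.ofBijective _ ⟨hinj, hsurj⟩, fun a i => rfl⟩
  have hnpos : 0 < n := by
    obtain ⟨v⟩ := hne
    have := (Φ.symm v).2.pos
    exact this
  have hadd : ∀ (a b : ℤ) v, (φ ^ a) ((φ ^ b) v) = (φ ^ (a + b)) v := by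
    intro a b v
    rw [zpow_add, Equiv.Perm.mul_apply]
  refine ⟨G.comap Φ, ⟨hnpos, hm, ?_, ?_, ?_, ?_, ?_⟩, ⟨(SimpleGraph.Iso.comap Φ G).symm⟩⟩
  · intro a j
    rw [SimpleGraph.comap_adj, hΦ, hΦ, add_comm, zpow_add, zpow_one, Equiv.Perm.mul_apply]
    exact hadj _
  · intro a b i j hab
    rw [SimpleGraph.comap_adj] at hab
    have h1 := hle _ _ hab
    rw [hΦ, hΦ, hXz, hXz, abs_le] at h1
    have a1 := hdX i
    have a2 := hdX j
    have c1 : (a - b) * H < 2 * H := by linarith [h1.2]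
    have c2 : (-2) * H < (a - b) * H := by linarith [h1.1]
    have c3 := lt_of_mul_lt_mul_right c1 hH.le
    have c4 := lt_of_mul_lt_mul_right c2 hH.le
    rw [abs_le]
    omega
  · intro a b i j
    obtain ⟨p, hp⟩ := hper
    have h1 : ∀ a i, Φ (a + m, i) = p (Φ (a, i)) := by
      intro a i
      rw [hp, hΦ, hΦ, hadd, add_comm]
    rw [SimpleGraph.comap_adj, SimpleGraph.comap_adj, h1, h1]
    exact (p.map_adj_iff).symm
  · have h1 := hc.image (G' := G.comap Φ) Φ.symm (by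
      intro a _ b _ hab
      right
      rw [SimpleGraph.comap_adj, Equiv.apply_symm_apply, Equiv.apply_symm_apply]
      exact hab)
    rw [Set.image_univ, Equiv.range_eq_univ] at h1
    exact h1
  · intro i j
    obtain ⟨f, e, he, hf, c₀, hc₀⟩ := htr (d i) (d j)
    have hfz : ∀ (a : ℤ) w, f ((φ ^ a) w) = (φ ^ (e * a)) (f w) := by
      intro a
      induction a using Int.induction_on with
      | zero => intro w; simp
      | succ a ih =>
        intro w
        rw [zpow_add_one, Equiv.Perm.mul_apply, ih, hf, hadd]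
        congr 2
        ring
      | pred a ih =>
        intro w
        have h1 := hf (φ⁻¹ w)
        have h0 : φ (φ⁻¹ w) = w := φ.apply_symm_apply w
        rw [h0] at h1
        rw [zpow_sub_one, Equiv.Perm.mul_apply, ih, h1, hadd]
        congr 2
        ring
    obtain ⟨c, hcdef⟩ : ∃ c : Fin n → ℤ, ∀ k, c k = (Φ.symm (f (d k))).1 := ⟨_, fun k => rfl⟩
    obtain ⟨τ₀, hτ₀⟩ : ∃ τ₀ : Fin n → Fin n, ∀ k, τ₀ k = (Φ.symm (f (d k))).2 :=
      ⟨_, fun k => rfl⟩
    have hfd : ∀ k, f (d k) = (φ ^ (c k)) (d (τ₀ k)) := by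
      intro k
      rw [← hΦ, hcdef, hτ₀, Prod.mk.eta, Equiv.apply_symm_apply]
    have hee : e * e = 1 := by rcases he with rfl | rfl <;> norm_num
    have hτinj : Function.Injective τ₀ := by
      intro k k' hk
      have h1 : f (d k) = (φ ^ (c k - c k')) (f (d k')) := by
        rw [hfd, hfd k', ← hk, hadd]
        congr 2
        ring
      have h2 : f ((φ ^ (e * (c k - c k'))) (d k')) = f (d k) := by
        rw [hfz, h1, ← mul_assoc, hee, one_mul]
      have h3 := f.injective h2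
      have h4 : Φ (e * (c k - c k'), k') = Φ (0, k) := by
        rw [hΦ, hΦ, h3]
        simp
      exact (congrArg Prod.snd (Φ.injective h4)).symm
    refine ⟨((SimpleGraph.Iso.comap Φ G).trans f).trans (SimpleGraph.Iso.comap Φ G).symm,
      Equiv.ofBijective τ₀ (Finite.injective_iff_bijective.1 hτinj), e, c, he, ?_, ?_⟩
    · change τ₀ i = j
      rw [hτ₀, hc₀, ← hΦ, Equiv.symm_apply_apply]
    · intro a k
      change Φ.symm (f (Φ (a, k))) = (e * a + c k, τ₀ k)
      rw [Equiv.symm_apply_eq, hΦ, hΦ, hfz, hfd, hadd]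

end Pool.Agent.Helper68.NW
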